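import Pool.Agent.Lib.EcT.Ham

/-!
# Quarters and the nested tree (blocks C2 and C3)

`quarters`: a planar set in general position with `4 m + 2` points contains four disjoint `m`-sets such
that every line misses one of them (this set lies strictly on one side).
`tree`: `4 ^ d` disjoint `m`-sets such that every line crosses at most `3 ^ d` of them.
`nested`: coarse and fine sets.
-/

namespace Pool.Agent.Lib.EcT

open Pool.Agent.Lib.Pec6744

/-- the set `Q` lies strictly on one side of the line through `u` and `v` -/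
def Miss (u v : E2) (Q : Finset E2) : Prop :=
  (∀ z ∈ Q, 0 < orient u v z) ∨ (∀ z ∈ Q, orient u v z < 0)

lemma Miss.mono {u v : E2} {Q R : Finset E2} (h : Miss u v Q) (hR : R ⊆ Q) : Miss u v R :=
  h.imp (fun h z hz => h z (hR hz)) (fun h z hz => h z (hR hz))

lemma Miss.symm {u v : E2} {Q : Finset E2} (h : Miss u v Q) : Miss v u Q := by
  have e : ∀ z : E2, orient v u z = - orient u v z := fun z => by unfold orient; ring
  rcases h with h | h
  · exact Or.inr fun z hz => by rw [e]; linarith [h z hz]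
  · exact Or.inl fun z hz => by rw [e]; linarith [h z hz]

/-- block C2: quarters -/
theorem quarters {P : Finset E2} (hP : GenPos P) {m : ℕ} (hm : 4 * m + 2 ≤ P.card) :
    ∃ Q : Fin 4 → Finset E2, (∀ i, Q i ⊆ P) ∧ (∀ i, (Q i).card = m) ∧
      (∀ i j, i ≠ j → Disjoint (Q i) (Q j)) ∧ ∀ u v : E2, u ≠ v → ∃ i, Miss u v (Q i) := by
  classical
  obtain ⟨t, ht⟩ := exists_shear P
  obtain ⟨Q, h1, h2, h3, h4⟩ := quarters_aux (fun p : E2 => p 0 + t * p 1) (fun p => p 1) P m hm ht (by
    intro a ha b hb c hc hab hac hbc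
    have := hP a ha b hb c hc hab hac hbc
    have e : Ori (fun p : E2 => p 0 + t * p 1) (fun p => p 1) a b c = orient a b c := by
      unfold Ori orient; ring
    rw [e]; exact this)
  refine ⟨Q, h1, h2, h3, fun u v huv => ?_⟩
  have e : ∀ z : E2, orient u v z = (-(v 1 - u 1)) * (z 0 + t * z 1) +
      ((v 0 - u 0) + t * (v 1 - u 1)) * z 1 + (-(v 0 - u 0) * u 1 + (v 1 - u 1) * u 0) := by
    intro z; unfold orient; ring
  have hne : (-(v 1 - u 1)) ≠ 0 ∨ ((v 0 - u 0) + t * (v 1 - u 1)) ≠ 0 := by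
    by_contra hcon
    push Not at hcon
    obtain ⟨c1, c2⟩ := hcon
    have d1 : v 1 = u 1 := by linarith
    rw [d1] at c2
    have d0 : v 0 = u 0 := by linarith
    apply huv
    ext i
    fin_cases i
    · exact d0.symm
    · exact d1.symm
  obtain ⟨i, hi⟩ := h4 _ _ (-(v 0 - u 0) * u 1 + (v 1 - u 1) * u 0) hne
  refine ⟨i, ?_⟩
  unfold Miss
  simp only [e]
  exact hi

/-- the additive constants of the tree -/
def cT : ℕ → ℕ
  | 0 => 0
  | d + 1 => 4 * cT d + 2

/-- block C3: the tree -/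
theorem tree (d : ℕ) (m : ℕ) {P : Finset E2} (hP : GenPos P) (hc : 4 ^ d * m + cT d ≤ P.card) :
    ∃ Q : (Fin d → Fin 4) → Finset E2, (∀ i, Q i ⊆ P) ∧ (∀ i, (Q i).card = m) ∧
      (∀ i j, i ≠ j → Disjoint (Q i) (Q j)) ∧
      ∀ u v : E2, u ≠ v → {i | ¬ Miss u v (Q i)}.ncard ≤ 3 ^ d := by
  classical
  induction d generalizing P with
  | zero =>
    obtain ⟨R, hR, hRc⟩ := Finset.exists_subset_card_eq (show m ≤ P.card by
      have : cT 0 = 0 := rfl
      rw [this] at hc; omega)
    refine ⟨fun _ => R, fun _ => hR, fun _ => hRc, fun i j hij => absurd (Subsingleton.elim i j) hij,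
      fun u v _ => ?_⟩
    refine (Set.ncard_le_ncard (Set.subset_univ _)).trans ?_
    rw [Set.ncard_univ, Nat.card_eq_fintype_card]
    simp
  | succ d ih =>
    have e1 : cT (d + 1) = 4 * cT d + 2 := rfl
    obtain ⟨Q, h1, h2, h3, h4⟩ := quarters hP (m := 4 ^ d * m + cT d) (by
      rw [e1] at hc
      have : 4 ^ (d + 1) * m = 4 * (4 ^ d * m) := by ring
      omega)
    have hQ : ∀ i, GenPos (Q i) := fun i a ha b hb c hc =>
      hP a (h1 i ha) b (h1 i hb) c (h1 i hc)
    choose R r1 r2 r3 r4 using fun i => ih (hQ i) (h2 i).ge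
    refine ⟨fun f => R (f 0) (Fin.tail f), fun f => (r1 _ _).trans (h1 _), fun f => r2 _ _, ?_, ?_⟩
    · intro f g hfg
      by_cases h0 : f 0 = g 0
      · show Disjoint (R (f 0) (Fin.tail f)) (R (g 0) (Fin.tail g))
        rw [h0]
        refine r3 _ _ _ fun ht => hfg ?_
        rw [← Fin.cons_self_tail f, ← Fin.cons_self_tail g, h0, ht]
      · exact Finset.disjoint_of_subset_left (r1 _ _)
          (Finset.disjoint_of_subset_right (r1 _ _) (h3 _ _ h0))
    · intro u v huv
      obtain ⟨i0, hi0⟩ := h4 u v huv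
      have hsub : {f : Fin (d + 1) → Fin 4 | ¬ Miss u v (R (f 0) (Fin.tail f))} ⊆
          ⋃ i ∈ (Finset.univ.erase i0 : Finset (Fin 4)),
            (fun g : Fin d → Fin 4 => (Fin.cons i g : Fin (d + 1) → Fin 4)) ''
              {g | ¬ Miss u v (R i g)} := by
        intro f hf
        change ¬ Miss u v (R (f 0) (Fin.tail f)) at hf
        have hne : f 0 ≠ i0 := fun h => hf ((h ▸ hi0 : Miss u v (Q (f 0))).mono (r1 _ _))
        simp only [Set.mem_iUnion]
        refine ⟨f 0, Finset.mem_erase.2 ⟨hne, Finset.mem_univ _⟩, Fin.tail f, hf, ?_⟩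
        exact Fin.cons_self_tail f
      refine (Set.ncard_le_ncard hsub (Set.toFinite _)).trans ?_
      have hb : ∀ s : Finset (Fin 4), (⋃ i ∈ s,
            (fun g : Fin d → Fin 4 => (Fin.cons i g : Fin (d + 1) → Fin 4)) ''
              {g | ¬ Miss u v (R i g)}).ncard ≤ s.card * 3 ^ d := by
        intro s
        induction s using Finset.induction_on with
        | empty => simp
        | insert a s ha ihs =>
          rw [Finset.set_biUnion_insert, Finset.card_insert_of_notMem ha]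
          refine (Set.ncard_union_le _ _).trans ?_
          have := Set.ncard_image_le (Set.toFinite {g | ¬ Miss u v (R a g)})
            (f := fun g : Fin d → Fin 4 => (Fin.cons a g : Fin (d + 1) → Fin 4))
          have := r4 a u v huv
          rw [add_mul, one_mul]
          omega
      refine (hb _).trans ?_
      rw [Finset.card_erase_of_mem (Finset.mem_univ _)]
      simp only [Finset.card_univ, Fintype.card_fin]
      rw [pow_succ]
      omega

/-- block C3: the nested tree: coarse sets `U i` and fine sets `F i j ⊆ U i` -/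
theorem nested (d₁ d₂ m : ℕ) {P : Finset E2} (hP : GenPos P)
    (hc : 4 ^ d₁ * (4 ^ d₂ * m + cT d₂) + cT d₁ ≤ P.card) :
    ∃ (U : (Fin d₁ → Fin 4) → Finset E2) (F : (Fin d₁ → Fin 4) → (Fin d₂ → Fin 4) → Finset E2),
      (∀ i, U i ⊆ P) ∧ (∀ i, (U i).card = 4 ^ d₂ * m + cT d₂) ∧
      (∀ i j, i ≠ j → Disjoint (U i) (U j)) ∧
      (∀ u v : E2, u ≠ v → {i | ¬ Miss u v (U i)}.ncard ≤ 3 ^ d₁) ∧
      (∀ i j, F i j ⊆ U i) ∧ (∀ i j, (F i j).card = m) ∧
      (∀ i j j', j ≠ j' → Disjoint (F i j) (F i j')) ∧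
      ∀ i, ∀ u v : E2, u ≠ v → {j | ¬ Miss u v (F i j)}.ncard ≤ 3 ^ d₂ := by
  obtain ⟨U, u1, u2, u3, u4⟩ := tree d₁ (4 ^ d₂ * m + cT d₂) hP hc
  choose F f1 f2 f3 f4 using fun i => tree d₂ m
    (fun a ha b hb c hc => hP a (u1 i ha) b (u1 i hb) c (u1 i hc) : GenPos (U i)) (u2 i).ge
  exact ⟨U, F, u1, u2, u3, u4, f1, f2, f3, f4⟩

end Pool.Agent.Lib.EcT
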