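import Pool.Agent.Lib.Pec6744.Cups

/-!
# Halving lines of two separated planar sets, and quarters

`exists_median`: the median of finitely many continuous functions can be chosen continuously.
`ham_sandwich`: two point sets with `2 m + 1` points each, one to the left of the other, in general
position, are halved by a common line.
-/

namespace Pool.Agent.Lib.EcT

open Pool.Agent.Lib.Pec6744

section
variable {α : Type*} [DecidableEq α]

/-- minimum over `T` of the functions `f a` -/
noncomputable def mn (f : α → ℝ → ℝ) (T : Finset α) (t : ℝ) : ℝ :=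
  if h : T.Nonempty then T.inf' h (fun a => f a t) else 0

omit [DecidableEq α] in
lemma continuous_mn {f : α → ℝ → ℝ} (hf : ∀ a, Continuous (f a)) (T : Finset α) :
    Continuous (mn f T) := by
  unfold mn
  by_cases h : T.Nonempty
  · simp only [h, dif_pos]
    exact Continuous.finset_inf'_apply h (fun a _ => hf a)
  · simp only [h, dif_neg, not_false_eq_true]
    exact continuous_const

/-- the median of finitely many continuous functions -/
theorem exists_median (f : α → ℝ → ℝ) (hf : ∀ a, Continuous (f a)) (A : Finset α) (m : ℕ)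
    (hA : A.card = 2 * m + 1) :
    ∃ M : ℝ → ℝ, Continuous M ∧ ∀ t, (∃ a ∈ A, f a t = M t) ∧
      (A.filter (fun a => f a t < M t)).card ≤ m ∧ (A.filter (fun a => M t < f a t)).card ≤ m := by
  have hne : (A.powersetCard (m + 1)).Nonempty := by
    rw [Finset.powersetCard_nonempty]; omega
  refine ⟨fun t => (A.powersetCard (m + 1)).sup' hne (fun T => mn f T t),
    Continuous.finset_sup'_apply hne (fun T _ => continuous_mn hf T), fun t => ?_⟩
  obtain ⟨T, hT, hTe⟩ := Finset.exists_mem_eq_sup' hne (fun T => mn f T t)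
  simp only
  rw [hTe]
  rw [Finset.mem_powersetCard] at hT
  obtain ⟨hTA, hTc⟩ := hT
  have hTne : T.Nonempty := by rw [← Finset.card_pos]; omega
  have hmn : mn f T t = T.inf' hTne (fun a => f a t) := by unfold mn; rw [dif_pos hTne]
  refine ⟨?_, ?_, ?_⟩
  · obtain ⟨a, ha, hae⟩ := Finset.exists_mem_eq_inf' hTne (fun a => f a t)
    exact ⟨a, hTA ha, by rw [hmn, hae]⟩
  · have hsub : A.filter (fun a => f a t < mn f T t) ⊆ A.filter (fun a => a ∉ T) := by
      intro a ha
      rw [Finset.mem_filter] at ha ⊢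
      refine ⟨ha.1, fun haT => ?_⟩
      have := Finset.inf'_le (fun a => f a t) haT
      rw [hmn] at ha
      exact absurd ha.2 (not_lt.2 this)
    refine (Finset.card_le_card hsub).trans ?_
    have e := Finset.card_filter_add_card_filter_not (s := A) (fun a => a ∈ T)
    have e2 : A.filter (fun a => a ∈ T) = T := by
      ext a; simp only [Finset.mem_filter]; exact ⟨fun h => h.2, fun h => ⟨hTA h, h⟩⟩
    rw [e2] at e
    omega
  · by_contra hcon
    push Not at hcon
    obtain ⟨U, hU, hUc⟩ := Finset.exists_subset_card_eq (show m + 1 ≤ _ from hcon)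
    have hUA : U ⊆ A := hU.trans (Finset.filter_subset _ _)
    have hUne : U.Nonempty := by rw [← Finset.card_pos]; omega
    have h1 : mn f U t ≤ mn f T t := by
      rw [← hTe]
      exact Finset.le_sup' (fun T => mn f T t) (Finset.mem_powersetCard.2 ⟨hUA, hUc⟩)
    have h2 : mn f U t = U.inf' hUne (fun a => f a t) := by unfold mn; rw [dif_pos hUne]
    obtain ⟨a, ha, hae⟩ := Finset.exists_mem_eq_inf' hUne (fun a => f a t)
    rw [h2, hae] at h1
    exact absurd (Finset.mem_filter.1 (hU ha)).2 (not_lt.2 h1)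

/-- a common halving line for two separated sets -/
theorem ham_sandwich (X Y : α → ℝ) (A B : Finset α) (m : ℕ) (hA : A.card = 2 * m + 1)
    (hB : B.card = 2 * m + 1) (hAB : ∀ a ∈ A, ∀ b ∈ B, X a < X b)
    (hgp : ∀ a ∈ A ∪ B, ∀ b ∈ A ∪ B, ∀ c ∈ A ∪ B, a ≠ b → a ≠ c → b ≠ c → Ori X Y a b c ≠ 0) :
    ∃ s c : ℝ, (A.filter (fun a => Y a - s * X a < c)).card = m ∧
      (A.filter (fun a => c < Y a - s * X a)).card = m ∧
      (B.filter (fun a => Y a - s * X a < c)).card = m ∧
      (B.filter (fun a => c < Y a - s * X a)).card = m := by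
  have hcont : ∀ a : α, Continuous (fun s : ℝ => Y a - s * X a) := fun a => by fun_prop
  obtain ⟨MA, hMA, hA'⟩ := exists_median (fun a s => Y a - s * X a) hcont A m hA
  obtain ⟨MB, hMB, hB'⟩ := exists_median (fun a s => Y a - s * X a) hcont B m hB
  -- a bound `s0` for the slopes of the lines through a point of `A` and a point of `B`
  obtain ⟨s0, hs0⟩ : ∃ s0 : ℝ, 0 ≤ s0 ∧ ∀ a ∈ A, ∀ b ∈ B, |(Y b - Y a) / (X b - X a)| ≤ s0 := by
    refine ⟨∑ p ∈ A ×ˢ B, |(Y p.2 - Y p.1) / (X p.2 - X p.1)|,
      Finset.sum_nonneg fun _ _ => abs_nonneg _, fun a ha b hb => ?_⟩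
    have hmem : (a, b) ∈ A ×ˢ B := Finset.mem_product.2 ⟨ha, hb⟩
    exact Finset.single_le_sum (f := fun p : α × α => |(Y p.2 - Y p.1) / (X p.2 - X p.1)|)
      (fun _ _ => abs_nonneg _) hmem
  have hpos : MB s0 ≤ MA s0 := by
    obtain ⟨a, ha, hae⟩ := (hA' s0).1
    obtain ⟨b, hb, hbe⟩ := (hB' s0).1
    rw [← hae, ← hbe]
    have h1 := hAB a ha b hb
    have h2 := (abs_le.1 (hs0.2 a ha b hb)).2
    rw [div_le_iff₀ (by linarith)] at h2
    linarith
  have hneg : MA (-s0) ≤ MB (-s0) := by
    obtain ⟨a, ha, hae⟩ := (hA' (-s0)).1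
    obtain ⟨b, hb, hbe⟩ := (hB' (-s0)).1
    rw [← hae, ← hbe]
    have h1 := hAB a ha b hb
    have h2 := (abs_le.1 (hs0.2 a ha b hb)).1
    rw [le_div_iff₀ (by linarith)] at h2
    linarith
  obtain ⟨s, -, hs⟩ : (0 : ℝ) ∈ (fun s => MA s - MB s) '' Set.Icc (-s0) s0 := by
    apply intermediate_value_Icc (by linarith [hs0.1]) (hMA.sub hMB).continuousOn
    constructor
    · show MA (-s0) - MB (-s0) ≤ 0
      linarith
    · show 0 ≤ MA s0 - MB s0
      linarith
  have hs : MA s = MB s := by simp only at hs; linarith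
  obtain ⟨⟨a0, ha0, hae⟩, hA1, hA2⟩ := hA' s
  obtain ⟨⟨b0, hb0, hbe⟩, hB1, hB2⟩ := hB' s
  rw [← hs] at hbe hB1 hB2
  have hdisj : ∀ a ∈ A, ∀ b ∈ B, a ≠ b := fun a ha b hb h => by
    have := hAB a ha b hb; rw [h] at this; exact lt_irrefl _ this
  have huniq : ∀ z ∈ A ∪ B, Y z - s * X z = MA s → z = a0 ∨ z = b0 := by
    intro z hz hze
    by_contra hcon
    push Not at hcon
    refine hgp a0 (Finset.mem_union_left _ ha0) b0 (Finset.mem_union_right _ hb0) z hz
      (hdisj _ ha0 _ hb0) hcon.1.symm hcon.2.symm ?_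
    have e1 : Y a0 = MA s + s * X a0 := by linarith
    have e2 : Y b0 = MA s + s * X b0 := by linarith
    have e3 : Y z = MA s + s * X z := by linarith
    unfold Ori
    rw [e1, e2, e3]; ring
  have key : ∀ (C : Finset α) (c0 : α), C.card = 2 * m + 1 → C ⊆ A ∪ B → c0 ∈ C →
      (∀ z ∈ C, Y z - s * X z = MA s → z = c0) →
      (C.filter (fun a => Y a - s * X a < MA s)).card ≤ m →
      (C.filter (fun a => MA s < Y a - s * X a)).card ≤ m →
      (C.filter (fun a => Y a - s * X a < MA s)).card = m ∧
      (C.filter (fun a => MA s < Y a - s * X a)).card = m := by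
    intro C c0 hC _ hc0 hu h1 h2
    have hcov : C ⊆ (C.filter (fun a => Y a - s * X a < MA s)) ∪
        (C.filter (fun a => MA s < Y a - s * X a)) ∪ {c0} := by
      intro z hz
      rcases lt_trichotomy (Y z - s * X z) (MA s) with h | h | h
      · exact Finset.mem_union_left _ (Finset.mem_union_left _ (Finset.mem_filter.2 ⟨hz, h⟩))
      · exact Finset.mem_union_right _ (Finset.mem_singleton.2 (hu z hz h))
      · exact Finset.mem_union_left _ (Finset.mem_union_right _ (Finset.mem_filter.2 ⟨hz, h⟩))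
    have c1 := Finset.card_le_card hcov
    have c2 := Finset.card_union_le ((C.filter (fun a => Y a - s * X a < MA s)) ∪
        (C.filter (fun a => MA s < Y a - s * X a))) {c0}
    have c3 := Finset.card_union_le (C.filter (fun a => Y a - s * X a < MA s))
        (C.filter (fun a => MA s < Y a - s * X a))
    rw [Finset.card_singleton] at c2
    omega
  refine ⟨s, MA s, ?_⟩
  obtain ⟨r1, r2⟩ := key A a0 hA Finset.subset_union_left ha0 (fun z hz hze => by
    rcases huniq z (Finset.mem_union_left _ hz) hze with h | h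
    · exact h
    · exact absurd h (hdisj z hz b0 hb0)) hA1 hA2
  obtain ⟨r3, r4⟩ := key B b0 hB Finset.subset_union_right hb0 (fun z hz hze => by
    rcases huniq z (Finset.mem_union_right _ hz) hze with h | h
    · exact absurd h.symm (hdisj a0 ha0 z hz)
    · exact h) hB1 hB2
  exact ⟨r1, r2, r3, r4⟩

/-- the `n` leftmost points -/
theorem exists_left (X : α → ℝ) (P : Finset α) (hX : Set.InjOn X P) (n : ℕ) (hn : n ≤ P.card) :
    ∃ A ⊆ P, A.card = n ∧ ∀ a ∈ A, ∀ b ∈ P, b ∉ A → X a < X b := by
  induction n with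
  | zero => exact ⟨∅, by simp, by simp, by simp⟩
  | succ n ih =>
    obtain ⟨A, hA, hAc, hAl⟩ := ih (by omega)
    have hne : (P \ A).Nonempty := by
      rw [← Finset.card_pos, Finset.card_sdiff_of_subset hA]; omega
    obtain ⟨x, hx, hxm⟩ := Finset.exists_min_image (P \ A) X hne
    rw [Finset.mem_sdiff] at hx
    refine ⟨insert x A, ?_, ?_, ?_⟩
    · intro z hz
      rcases Finset.mem_insert.1 hz with h | h
      · rw [h]; exact hx.1
      · exact hA h
    · rw [Finset.card_insert_of_notMem hx.2, hAc]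
    · intro a ha b hb hbn
      rw [Finset.mem_insert, not_or] at hbn
      rcases Finset.mem_insert.1 ha with h | h
      · rw [h]
        have h1 := hxm b (Finset.mem_sdiff.2 ⟨hb, hbn.2⟩)
        rcases h1.lt_or_eq with h2 | h2
        · exact h2
        · exact absurd (hX (Finset.mem_coe.2 hx.1) (Finset.mem_coe.2 hb) h2).symm hbn.1
      · exact hAl a h b hb hbn.2

/-- quarters, in coordinates -/
theorem quarters_aux (X Y : α → ℝ) (P : Finset α) (m : ℕ) (hm : 4 * m + 2 ≤ P.card)
    (hX : Set.InjOn X P)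
    (hgp : ∀ a ∈ P, ∀ b ∈ P, ∀ c ∈ P, a ≠ b → a ≠ c → b ≠ c → Ori X Y a b c ≠ 0) :
    ∃ Q : Fin 4 → Finset α, (∀ i, Q i ⊆ P) ∧ (∀ i, (Q i).card = m) ∧
      (∀ i j, i ≠ j → Disjoint (Q i) (Q j)) ∧
      ∀ p q r : ℝ, (p ≠ 0 ∨ q ≠ 0) → ∃ i, (∀ z ∈ Q i, 0 < p * X z + q * Y z + r) ∨
        (∀ z ∈ Q i, p * X z + q * Y z + r < 0) := by
  obtain ⟨P', hP', hP'c⟩ := Finset.exists_subset_card_eq hm
  obtain ⟨A, hAP, hAc, hAl⟩ := exists_left X P' (hX.mono (by exact_mod_cast hP')) (2 * m + 1)
    (by omega)
  set B := P' \ A with hB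
  have hBc : B.card = 2 * m + 1 := by
    rw [hB, Finset.card_sdiff_of_subset hAP]; omega
  have hAB : ∀ a ∈ A, ∀ b ∈ B, X a < X b := fun a ha b hb =>
    hAl a ha b (Finset.mem_sdiff.1 hb).1 (Finset.mem_sdiff.1 hb).2
  have hBP : B ⊆ P' := Finset.sdiff_subset
  have hsubP : A ∪ B ⊆ P := (Finset.union_subset hAP hBP).trans hP'
  obtain ⟨s, c, h1, h2, h3, h4⟩ := ham_sandwich X Y A B m hAc hBc hAB
    (fun a ha b hb c hc => hgp a (hsubP ha) b (hsubP hb) c (hsubP hc))
  -- a separating abscissa
  obtain ⟨x0, hxA, hxB⟩ : ∃ x0 : ℝ, (∀ a ∈ A, X a < x0) ∧ ∀ b ∈ B, x0 < X b := by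
    have hAne : A.Nonempty := by rw [← Finset.card_pos]; omega
    have hBne : B.Nonempty := by rw [← Finset.card_pos]; omega
    obtain ⟨a, ha, ham⟩ := Finset.exists_max_image A X hAne
    obtain ⟨b, hb, hbm⟩ := Finset.exists_min_image B X hBne
    have h := hAB a ha b hb
    refine ⟨(X a + X b) / 2, fun z hz => ?_, fun z hz => ?_⟩
    · have := ham z hz; linarith
    · have := hbm z hz; linarith
  set Q : Fin 4 → Finset α := ![A.filter (fun a => Y a - s * X a < c),
    A.filter (fun a => c < Y a - s * X a), B.filter (fun a => Y a - s * X a < c),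
    B.filter (fun a => c < Y a - s * X a)] with hQ
  have hQ0 : Q 0 = A.filter (fun a => Y a - s * X a < c) := rfl
  have hQ1 : Q 1 = A.filter (fun a => c < Y a - s * X a) := rfl
  have hQ2 : Q 2 = B.filter (fun a => Y a - s * X a < c) := rfl
  have hQ3 : Q 3 = B.filter (fun a => c < Y a - s * X a) := rfl
  have dAB : Disjoint A B := Finset.disjoint_sdiff
  have dlt : ∀ C D : Finset α, Disjoint (C.filter (fun a => Y a - s * X a < c))
      (D.filter (fun a => c < Y a - s * X a)) := by
    intro C D
    rw [Finset.disjoint_left]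
    intro z hz hz'
    have a1 := (Finset.mem_filter.1 hz).2
    have a2 := (Finset.mem_filter.1 hz').2
    linarith
  have dd : ∀ (p q : α → Prop) [DecidablePred p] [DecidablePred q],
      Disjoint (A.filter p) (B.filter q) := by
    intro p q _ _
    exact Finset.disjoint_of_subset_left (Finset.filter_subset _ _)
      (Finset.disjoint_of_subset_right (Finset.filter_subset _ _) dAB)
  refine ⟨Q, ?_, ?_, ?_, ?_⟩
  · intro i
    have a1 : A ⊆ P := hAP.trans hP'
    have a2 : B ⊆ P := hBP.trans hP'
    fin_cases i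
    · exact (Finset.filter_subset _ _).trans a1
    · exact (Finset.filter_subset _ _).trans a1
    · exact (Finset.filter_subset _ _).trans a2
    · exact (Finset.filter_subset _ _).trans a2
  · intro i
    fin_cases i
    · exact h1
    · exact h2
    · exact h3
    · exact h4
  · intro i j hij
    fin_cases i <;> fin_cases j
    · exact absurd rfl hij
    · exact dlt A A
    · exact dd _ _
    · exact dd _ _
    · exact (dlt A A).symm
    · exact absurd rfl hij
    · exact dd _ _
    · exact dd _ _
    · exact (dd _ _).symm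
    · exact (dd _ _).symm
    · exact absurd rfl hij
    · exact dlt B B
    · exact (dd _ _).symm
    · exact (dd _ _).symm
    · exact (dlt B B).symm
    · exact absurd rfl hij
  · intro p q r hpq
    -- `p X + q Y + r = u (X - x0) + q (Y - s X - c) + g`
    set u : ℝ := p + q * s with hu
    set g : ℝ := r + u * x0 + q * c with hg
    have hid : ∀ z, p * X z + q * Y z + r = u * (X z - x0) + q * (Y z - s * X z - c) + g := by
      intro z; rw [hg, hu]; ring
    have huq : u ≠ 0 ∨ q ≠ 0 := by
      by_contra hcon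
      push Not at hcon
      rw [hcon.2] at hu
      rcases hpq with h | h
      · apply h; rw [hcon.1] at hu; linarith
      · exact h hcon.2
    have main : ∀ u q : ℝ, (u ≠ 0 ∨ q ≠ 0) →
        ∃ i, ∀ z ∈ Q i, 0 < u * (X z - x0) + q * (Y z - s * X z - c) := by
      intro u q huq
      rcases le_or_gt 0 u with hu0 | hu0 <;> rcases le_or_gt 0 q with hq0 | hq0
      · refine ⟨3, fun z hz => ?_⟩
        rw [hQ3, Finset.mem_filter] at hz
        have b1 : 0 < X z - x0 := by linarith [hxB z hz.1]
        have b2 : 0 < Y z - s * X z - c := by linarith [hz.2]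
        rcases huq with h | h
        · have := mul_pos (lt_of_le_of_ne hu0 h.symm) b1
          have := mul_nonneg hq0 b2.le
          linarith
        · have := mul_nonneg hu0 b1.le
          have := mul_pos (lt_of_le_of_ne hq0 h.symm) b2
          linarith
      · refine ⟨2, fun z hz => ?_⟩
        rw [hQ2, Finset.mem_filter] at hz
        have b1 : 0 < X z - x0 := by linarith [hxB z hz.1]
        have b2 : Y z - s * X z - c < 0 := by linarith [hz.2]
        have := mul_nonneg hu0 b1.le
        have := mul_pos_of_neg_of_neg hq0 b2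
        linarith
      · refine ⟨1, fun z hz => ?_⟩
        rw [hQ1, Finset.mem_filter] at hz
        have b1 : X z - x0 < 0 := by linarith [hxA z hz.1]
        have b2 : 0 < Y z - s * X z - c := by linarith [hz.2]
        have := mul_pos_of_neg_of_neg hu0 b1
        have := mul_nonneg hq0 b2.le
        linarith
      · refine ⟨0, fun z hz => ?_⟩
        rw [hQ0, Finset.mem_filter] at hz
        have b1 : X z - x0 < 0 := by linarith [hxA z hz.1]
        have b2 : Y z - s * X z - c < 0 := by linarith [hz.2]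
        have := mul_pos_of_neg_of_neg hu0 b1
        have := mul_pos_of_neg_of_neg hq0 b2
        linarith
    rcases le_or_gt 0 g with hg0 | hg0
    · obtain ⟨i, hi⟩ := main u q huq
      refine ⟨i, Or.inl fun z hz => ?_⟩
      rw [hid]
      linarith [hi z hz]
    · obtain ⟨i, hi⟩ := main (-u) (-q) (huq.imp (fun h => neg_ne_zero.2 h) (fun h => neg_ne_zero.2 h))
      refine ⟨i, Or.inr fun z hz => ?_⟩
      rw [hid]
      linarith [hi z hz]

end

end Pool.Agent.Lib.EcT
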